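import Mathlib

set_option autoImplicit false

namespace Pool.Agent.Lib.MP_5a2675_co

/-- The number of edges of `G` with one end in `S` and the other end outside `S`. -/
def cut {V : Type} [Fintype V] [DecidableEq V] (G : SimpleGraph V) [DecidableRel G.Adj]
    (S : Finset V) : ℕ :=
  ((S ×ˢ Sᶜ).filter fun p => G.Adj p.1 p.2).card

/-- `Carving G w S`: the vertex set `S` is the leaf set of a rooted binary tree all of whose
nodes display a vertex set with at most `w` edges leaving it.  `Carving G w univ` says that `G`
has carving width at most `w`. -/
inductive Carving {V : Type} [Fintype V] [DecidableEq V] (G : SimpleGraph V)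
    [DecidableRel G.Adj] (w : ℕ) : Finset V → Prop
  | single (v : V) : cut G {v} ≤ w → Carving G w {v}
  | union (A B : Finset V) : Carving G w A → Carving G w B → Disjoint A B →
      cut G (A ∪ B) ≤ w → Carving G w (A ∪ B)

/-- `D` is a dominating set of `G`. -/
def Dominating {V : Type} (G : SimpleGraph V) (D : Finset V) : Prop :=
  ∀ v, v ∉ D → ∃ u ∈ D, G.Adj v u

end Pool.Agent.Lib.MP_5a2675_co
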