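import Mathlib
import Pool.Agent.Lib.MP_5a2675_co.Defs

set_option autoImplicit false
set_option linter.unusedSectionVars false

namespace Pool.Agent.Lib.MP_5a2675_co

open Finset

/-- positional code -/
def cd (b : ℕ) (k : ℕ) (f : ℕ → ℕ) : ℕ :=
  Nat.rec 0 (fun i r => Nat.add r (Nat.mul (f i) (Nat.pow b i))) k

def dig (b u i : ℕ) : ℕ := Nat.mod (Nat.div u (Nat.pow b i)) b

theorem cd_zero (b : ℕ) (f : ℕ → ℕ) : cd b 0 f = 0 := rfl
theorem cd_succ (b k : ℕ) (f : ℕ → ℕ) : cd b (k + 1) f = cd b k f + f k * b ^ k := rfl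
theorem dig_def (b u i : ℕ) : dig b u i = u / b ^ i % b := rfl

theorem cd_congr (b k : ℕ) (f g : ℕ → ℕ) (h : ∀ i < k, f i = g i) : cd b k f = cd b k g := by
  induction k with
  | zero => rfl
  | succ k ih => rw [cd_succ, cd_succ, ih fun i hi => h i (by omega), h k (by omega)]

theorem cd_lt (b k : ℕ) (f : ℕ → ℕ) (h : ∀ i < k, f i < b) : cd b k f < b ^ k := by
  induction k with
  | zero => simp [cd_zero]
  | succ k ih =>
    have h1 := ih fun i hi => h i (by omega)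
    have h2 : f k + 1 ≤ b := h k (by omega)
    rw [cd_succ, pow_succ]
    have := Nat.mul_le_mul_right (b ^ k) h2
    nlinarith

theorem cd_add (b r j : ℕ) (f : ℕ → ℕ) :
    cd b (r + j) f = cd b r f + b ^ r * cd b j (fun i => f (r + i)) := by
  induction j with
  | zero => simp [cd_zero]
  | succ j ih => rw [← add_assoc, cd_succ, ih, cd_succ, pow_add]; ring

theorem dig_cd (b k : ℕ) (f : ℕ → ℕ) (h : ∀ i < k, f i < b) (i : ℕ) (hi : i < k) :
    dig b (cd b k f) i = f i := by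
  obtain ⟨j, rfl⟩ : ∃ j, k = i + (1 + j) := ⟨k - i - 1, by omega⟩
  have hb : 0 < b := lt_of_le_of_lt (Nat.zero_le _) (h i hi)
  rw [dig_def, cd_add, cd_add, Nat.add_mul_div_left _ _ (pow_pos hb i),
    Nat.div_eq_of_lt (cd_lt b i f fun a ha => h a (by omega)), cd_succ, cd_zero]
  simp [Nat.mod_eq_of_lt (h i hi)]

theorem dig_lt (b u i : ℕ) (hb : 0 < b) : dig b u i < b := Nat.mod_lt _ hb

theorem cd_dig (b k u : ℕ) (h : u < b ^ k) : cd b k (dig b u) = u := by
  have : ∀ k, cd b k (dig b u) = u % b ^ k := by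
    intro k
    induction k with
    | zero => simp [cd_zero, Nat.mod_one]
    | succ k ih => rw [cd_succ, ih, dig_def, Nat.mod_pow_succ, mul_comm]
  rw [this, Nat.mod_eq_of_lt h]

variable {V : Type} [Fintype V] [DecidableEq V] (G : SimpleGraph V) [DecidableRel G.Adj]

def Bd (S : Finset V) (d : V × V) : Prop := d.1 ∈ S ∧ d.2 ∉ S ∧ G.Adj d.1 d.2

def Val (S : Finset V) (s : V × V → ℕ) (c : ℕ) : Prop :=
  ∃ D : Finset V, D ⊆ S ∧ (∀ d, Bd G S d → s d = 2 → d.1 ∈ D) ∧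
    (∀ u ∈ S, u ∈ D ∨ (∃ w ∈ D, G.Adj u w) ∨ ∃ d, Bd G S d ∧ d.1 = u ∧ s d = 0) ∧
    20 * D.card + 50 ≤ 7 * S.card + c

def Enum (S : Finset V) (k : ℕ) (e : ℕ → V × V) : Prop :=
  (∀ i < k, ∀ i' < k, e i = e i' → i = i') ∧ (∀ i < k, Bd G S (e i)) ∧
    ∀ d, Bd G S d → ∃ i < k, e i = d

def Rep (S : Finset V) (k : ℕ) (e : ℕ → V × V) (F t : ℕ → ℕ) : Prop :=
  Enum G S k e ∧ (∀ s : V × V → ℕ, (∀ d, s d < 3) → Val G S s (F (cd 3 k fun i => s (e i)))) ∧
    ∀ i < k, ∀ i' < k, t i = t i' → (e i).1 = (e i').1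

variable {G}

theorem Val.mono {S : Finset V} {s : V × V → ℕ} {c c' : ℕ} (h : Val G S s c) (hc : c ≤ c') :
    Val G S s c' := by
  obtain ⟨D, h1, h2, h3, h4⟩ := h
  exact ⟨D, h1, h2, h3, by omega⟩

theorem Enum.cut_eq {S : Finset V} {k : ℕ} {e : ℕ → V × V} (h : Enum G S k e) : cut G S = k := by
  unfold cut
  symm
  rw [← card_range k]
  refine card_bij (fun i _ => e i) ?_ ?_ ?_
  · intro i hi
    obtain ⟨a, b, c⟩ := h.2.1 i (mem_range.1 hi)
    simp [a, b, c]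
  · intro i hi j hj hij
    exact h.1 i (mem_range.1 hi) j (mem_range.1 hj) hij
  · intro d hd
    simp only [mem_filter, mem_product, mem_compl] at hd
    obtain ⟨i, hi, rfl⟩ := h.2.2 d ⟨hd.1.1, hd.1.2, hd.2⟩
    exact ⟨i, mem_range.2 hi, rfl⟩

theorem Rep.reindex {S : Finset V} {k : ℕ} {e : ℕ → V × V} {F t F' t' : ℕ → ℕ}
    (h : Rep G S k e F t) (ρ : ℕ → ℕ) (h1 : ∀ i < k, ρ i < k)
    (h2 : ∀ i < k, ∀ i' < k, ρ i = ρ i' → i = i') (h3 : ∀ a < k, ∃ i < k, ρ i = a)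
    (h4 : ∀ u < 3 ^ k, F u ≤ F' (cd 3 k fun i => dig 3 u (ρ i)))
    (h5 : ∀ i < k, ∀ i' < k, t' i = t' i' → t (ρ i) = t (ρ i')) :
    Rep G S k (fun i => e (ρ i)) F' t' := by
  obtain ⟨⟨a1, a2, a3⟩, b, c⟩ := h
  refine ⟨⟨fun i hi i' hi' h => h2 i hi i' hi' (a1 _ (h1 i hi) _ (h1 i' hi') h),
    fun i hi => a2 _ (h1 i hi), fun d hd => ?_⟩, fun s hs => ?_, fun i hi i' hi' h => ?_⟩
  · obtain ⟨a, ha, rfl⟩ := a3 d hd
    obtain ⟨i, hi, rfl⟩ := h3 a ha
    exact ⟨i, hi, rfl⟩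
  · refine (b s hs).mono ?_
    refine (h4 _ (cd_lt 3 k _ fun i _ => hs _)).trans (le_of_eq ?_)
    congr 1
    exact cd_congr _ _ _ _ fun i hi => dig_cd 3 k (fun i => s (e i)) (fun i _ => hs _) _ (h1 i hi)
  · exact c _ (h1 i hi) _ (h1 i' hi') (h5 i hi i' hi' h)

theorem val_join {A B : Finset V} (hAB : Disjoint A B) {s s' : V × V → ℕ} {a b c : ℕ}
    (hA : Val G A s' a) (hB : Val G B s' b) (h1 : ∀ d, Bd G (A ∪ B) d → s' d = s d)
    (h2 : ∀ d : V × V, d.1 ∈ A → d.2 ∈ B → (s' d = 0 → s' d.swap = 2) ∧ (s' d.swap = 0 → s' d = 2))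
    (hc : a + b ≤ c + 50) : Val G (A ∪ B) s c := by
  obtain ⟨D, a1, a2, a3, a4⟩ := hA
  obtain ⟨E, b1, b2, b3, b4⟩ := hB
  have hd := disjoint_left.1 hAB
  refine ⟨D ∪ E, union_subset_union a1 b1, fun d hd hs => ?_, fun u hu => ?_, ?_⟩
  · obtain ⟨k1, k2, k3⟩ := id hd
    rw [mem_union, not_or] at k2
    rcases mem_union.1 k1 with k | k
    · exact mem_union_left _ (a2 d ⟨k, k2.1, k3⟩ (by rw [h1 d hd, hs]))
    · exact mem_union_right _ (b2 d ⟨k, k2.2, k3⟩ (by rw [h1 d hd, hs]))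
  · rcases mem_union.1 hu with k | k
    · rcases a3 u k with h | ⟨w, hw, h⟩ | ⟨d, ⟨k1, k2, k3⟩, rfl, h⟩
      · exact Or.inl (mem_union_left _ h)
      · exact Or.inr (Or.inl ⟨w, mem_union_left _ hw, h⟩)
      · by_cases hb : d.2 ∈ B
        · exact Or.inr (Or.inl ⟨d.2, mem_union_right _
            (b2 d.swap ⟨hb, hd k1, k3.symm⟩ ((h2 d k1 hb).1 h)), k3⟩)
        · have : Bd G (A ∪ B) d := ⟨hu, by simp [k2, hb], k3⟩
          exact Or.inr (Or.inr ⟨d, this, rfl, by rw [← h1 d this, h]⟩)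
    · rcases b3 u k with h | ⟨w, hw, h⟩ | ⟨d, ⟨k1, k2, k3⟩, rfl, h⟩
      · exact Or.inl (mem_union_right _ h)
      · exact Or.inr (Or.inl ⟨w, mem_union_right _ hw, h⟩)
      · by_cases ha : d.2 ∈ A
        · exact Or.inr (Or.inl ⟨d.2, mem_union_left _
            (a2 d.swap ⟨ha, fun h' => hd h' k1, k3.symm⟩ ((h2 d.swap ha k1).2 h)), k3⟩)
        · have : Bd G (A ∪ B) d := ⟨hu, by simp [k2, ha], k3⟩
          exact Or.inr (Or.inr ⟨d, this, rfl, by rw [← h1 d this, h]⟩)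
  · have := card_union_le D E
    rw [card_union_of_disjoint hAB]
    omega

/-- The darts of `A` are sorted: the first `r` leave `A ∪ B`, the last `j` enter `B`. -/
def Sorted (B : Finset V) (r j : ℕ) (e : ℕ → V × V) : Prop :=
  ∀ i < r + j, ((e i).2 ∈ B ↔ r ≤ i)

theorem enum_join {A B : Finset V} (hAB : Disjoint A B) {r1 r2 j1 j2 : ℕ} {e1 e2 : ℕ → V × V}
    (hA : Enum G A (r1 + j1) e1) (hB : Enum G B (r2 + j2) e2) (sA : Sorted B r1 j1 e1)
    (sB : Sorted A r2 j2 e2) :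
    Enum G (A ∪ B) (r1 + r2) (fun i => if i < r1 then e1 i else e2 (i - r1)) := by
  have hd := disjoint_left.1 hAB
  obtain ⟨a1, a2, a3⟩ := hA
  obtain ⟨b1, b2, b3⟩ := hB
  refine ⟨fun i hi i' hi' h => ?_, fun i hi => ?_, fun d hd => ?_⟩
  · simp only at h
    split_ifs at h with h1 h2 h2
    · exact a1 i (by omega) i' (by omega) h
    · exact absurd (h ▸ (b2 (i' - r1) (by omega)).1) (hd (a2 i (by omega)).1)
    · exact absurd (h.symm ▸ (b2 (i - r1) (by omega)).1) (hd (a2 i' (by omega)).1)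
    · have := b1 (i - r1) (by omega) (i' - r1) (by omega) h
      omega
  · simp only
    split_ifs with h1
    · obtain ⟨k1, k2, k3⟩ := a2 i (by omega)
      have := sA i (by omega)
      exact ⟨mem_union_left _ k1, by rw [mem_union, this]; rintro (h | h); exact k2 h; omega, k3⟩
    · obtain ⟨k1, k2, k3⟩ := b2 (i - r1) (by omega)
      have := sB (i - r1) (by omega)
      exact ⟨mem_union_right _ k1, by rw [mem_union, this]; rintro (h | h); omega; exact k2 h, k3⟩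
  · obtain ⟨k1, k2, k3⟩ := hd
    rw [mem_union, not_or] at k2
    rcases mem_union.1 k1 with k | k
    · obtain ⟨i, hi, rfl⟩ := a3 d ⟨k, k2.1, k3⟩
      have := sA i hi
      have h : i < r1 := by by_contra h; exact k2.2 (this.2 (by omega))
      exact ⟨i, by omega, by simp [h]⟩
    · obtain ⟨i, hi, rfl⟩ := b3 d ⟨k, k2.2, k3⟩
      have := sB i hi
      have h : i < r2 := by by_contra h; exact k2.1 (this.2 (by omega))
      exact ⟨r1 + i, by omega, by simp⟩

theorem exists_match {A B : Finset V} (hAB : Disjoint A B) {r1 r2 j1 j2 : ℕ} {e1 e2 : ℕ → V × V}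
    (hA : Enum G A (r1 + j1) e1) (hB : Enum G B (r2 + j2) e2) (sA : Sorted B r1 j1 e1)
    (sB : Sorted A r2 j2 e2) :
    ∃ σ : ℕ → ℕ, (∀ i < j2, σ i < j1 ∧ e2 (r2 + i) = (e1 (r1 + σ i)).swap) ∧
      ∀ i < j2, ∀ i' < j2, σ i = σ i' → i = i' := by
  have hd := disjoint_left.1 hAB
  have : ∀ i, ∃ a, i < j2 → a < j1 ∧ e2 (r2 + i) = (e1 (r1 + a)).swap := by
    intro i
    by_cases hi : i < j2
    · obtain ⟨k1, k2, k3⟩ := hB.2.1 (r2 + i) (by omega)
      have k4 := (sB (r2 + i) (by omega)).2 (by omega)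
      obtain ⟨a, ha, h⟩ := hA.2.2 (e2 (r2 + i)).swap ⟨k4, fun h => hd h k1, k3.symm⟩
      have k5 := (sA a ha).1 (by rw [h]; exact k1)
      refine ⟨a - r1, fun _ => ⟨by omega, ?_⟩⟩
      rw [show r1 + (a - r1) = a by omega, h, Prod.swap_swap]
    · exact ⟨0, fun h => absurd h hi⟩
  choose σ hσ using this
  refine ⟨σ, hσ, fun i hi i' hi' h => ?_⟩
  have := hB.1 (r2 + i) (by omega) (r2 + i') (by omega) (by rw [(hσ i hi).2, (hσ i' hi').2, h])
  omega

theorem le_of_inj {j1 j2 : ℕ} (σ : ℕ → ℕ) (h1 : ∀ i < j2, σ i < j1)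
    (h2 : ∀ i < j2, ∀ i' < j2, σ i = σ i' → i = i') : j2 ≤ j1 := by
  have := card_le_card_of_injOn (s := range j2) (t := range j1) σ
    (fun i hi => by simpa using h1 i (by simpa using hi))
    (fun i hi i' hi' h => h2 i (by simpa using hi) i' (by simpa using hi') h)
  simpa using this

theorem rep_join {A B : Finset V} (hAB : Disjoint A B) {r1 r2 j : ℕ} {e1 e2 : ℕ → V × V}
    {F1 F2 t1 t2 F : ℕ → ℕ} (hA : Rep G A (r1 + j) e1 F1 t1) (hB : Rep G B (r2 + j) e2 F2 t2)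
    (sA : Sorted B r1 j e1) (sB : Sorted A r2 j e2) (σ : ℕ → ℕ)
    (hσ : ∀ i < j, σ i < j ∧ e2 (r2 + i) = (e1 (r1 + σ i)).swap) (ht : ∀ i, t1 i < 4)
    (hF : ∀ x < 3 ^ r1, ∀ y < 3 ^ r2, ∃ z < 3 ^ j,
      F1 (x + 3 ^ r1 * z) + F2 (y + 3 ^ r2 * cd 3 j fun i => 2 - dig 3 z (σ i)) ≤
        F (x + 3 ^ r1 * y) + 50) :
    Rep G (A ∪ B) (r1 + r2) (fun i => if i < r1 then e1 i else e2 (i - r1)) F
      (fun i => if i < r1 then t1 i else 4 + t2 (i - r1)) := by
  classical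
  have hd := disjoint_left.1 hAB
  refine ⟨enum_join hAB hA.1 hB.1 sA sB, fun s hs => ?_, fun i hi i' hi' h => ?_⟩
  · obtain ⟨z, hz, hle⟩ := hF _ (cd_lt 3 r1 (fun i => s (e1 i)) fun i _ => hs _) _
      (cd_lt 3 r2 (fun i => s (e2 i)) fun i _ => hs _)
    let ζ : V × V → ℕ := fun d => if h : ∃ i < j, e1 (r1 + i) = d then dig 3 z h.choose else 0
    have hζ : ∀ i < j, ζ (e1 (r1 + i)) = dig 3 z i := by
      intro i hi
      have h : ∃ a < j, e1 (r1 + a) = e1 (r1 + i) := ⟨i, hi, rfl⟩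
      have h1 := h.choose_spec
      have h2 := hA.1.1 _ (by omega) _ (by omega) h1.2
      simp only [ζ, dif_pos h]
      congr 1; omega
    have hζ3 : ∀ d, ζ d < 3 := by
      intro d
      simp only [ζ]
      split_ifs
      · exact dig_lt _ _ _ (by norm_num)
      · norm_num
    let s' : V × V → ℕ := fun d => if d.1 ∈ A ∧ d.2 ∈ B then ζ d
      else if d.1 ∈ B ∧ d.2 ∈ A then 2 - ζ d.swap else s d
    have hs' : ∀ d, s' d < 3 := by
      intro d
      simp only [s']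
      split_ifs
      · exact hζ3 _
      · omega
      · exact hs _
    have c1 : (cd 3 (r1 + j) fun i => s' (e1 i)) = (cd 3 r1 fun i => s (e1 i)) + 3 ^ r1 * z := by
      rw [cd_add]
      congr 1
      · refine cd_congr _ _ _ _ fun i hi => ?_
        have k1 := (hA.1.2.1 i (by omega)).1
        have k2 := sA i (by omega)
        have k3 : (e1 i).2 ∉ B := by rw [k2]; omega
        simp only [s', k3, hd k1, and_false, false_and, if_false]
      · congr 1
        rw [← cd_dig 3 j z hz]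
        refine cd_congr _ _ _ _ fun i hi => ?_
        have k1 := (hA.1.2.1 (r1 + i) (by omega)).1
        have k2 := (sA (r1 + i) (by omega)).2 (by omega)
        simp only [s', k1, k2, and_self, if_true]
        rw [hζ i hi]
    have c2 : (cd 3 (r2 + j) fun i => s' (e2 i)) =
        (cd 3 r2 fun i => s (e2 i)) + 3 ^ r2 * cd 3 j fun i => 2 - dig 3 z (σ i) := by
      rw [cd_add]
      congr 1
      · refine cd_congr _ _ _ _ fun i hi => ?_
        have k1 := (hB.1.2.1 i (by omega)).1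
        have k2 := sB i (by omega)
        have k3 : (e2 i).2 ∉ A := by rw [k2]; omega
        have k4 : (e2 i).1 ∉ A := fun h => hd h k1
        simp only [s', k3, k4, and_false, false_and, if_false]
      · congr 1
        refine cd_congr _ _ _ _ fun i hi => ?_
        have k1 := (hB.1.2.1 (r2 + i) (by omega)).1
        have k2 := (sB (r2 + i) (by omega)).2 (by omega)
        have k4 : (e2 (r2 + i)).1 ∉ A := fun h => hd h k1
        simp only [s', k1, k2, k4, and_self, false_and, if_true, if_false]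
        rw [(hσ i hi).2, Prod.swap_swap, hζ _ (hσ i hi).1]
    have c3 : (cd 3 (r1 + r2) fun i => s (if i < r1 then e1 i else e2 (i - r1))) =
        (cd 3 r1 fun i => s (e1 i)) + 3 ^ r1 * cd 3 r2 fun i => s (e2 i) := by
      rw [cd_add]
      congr 1
      · exact cd_congr _ _ _ _ fun i hi => by simp [hi]
      · congr 1
        exact cd_congr _ _ _ _ fun i hi => by simp
    have v1 := hA.2.1 s' hs'
    have v2 := hB.2.1 s' hs'
    rw [c1] at v1
    rw [c2] at v2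
    rw [c3]
    refine val_join hAB v1 v2 (fun d hd' => ?_) (fun d h1 h2 => ?_) hle
    · have k := hd'.2.1
      rw [mem_union, not_or] at k
      simp only [s', k.1, k.2, and_false, if_false]
    · have k4 : d.2 ∉ A := fun h => hd h h2
      have := hζ3 d
      simp only [s', h1, h2, k4, Prod.fst_swap, Prod.snd_swap, Prod.swap_swap, and_self,
        false_and, if_true, if_false]
      omega
  · simp only at h ⊢
    split_ifs at h ⊢ with h1 h2 h2
    · exact hA.2.2 i (by omega) i' (by omega) h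
    · have := ht i; omega
    · have := ht i'; omega
    · exact hB.2.2 _ (by omega) _ (by omega) (by omega)

theorem not_bad {A B : Finset V} {r1 r2 j : ℕ} {e1 e2 : ℕ → V × V}
    {F1 F2 t1 t2 : ℕ → ℕ} (hA : Rep G A (r1 + j) e1 F1 t1) (hB : Rep G B (r2 + j) e2 F2 t2)
    (σ : ℕ → ℕ) (hσ : ∀ i < j, σ i < j ∧ e2 (r2 + i) = (e1 (r1 + σ i)).swap)
    (i : ℕ) (hi : i < j) (i' : ℕ) (hi' : i' < j) (h1 : t1 (r1 + σ i) = t1 (r1 + σ i'))
    (h2 : t2 (r2 + i) = t2 (r2 + i')) : i = i' := by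
  have k1 := hA.2.2 _ (by have := (hσ i hi).1; omega) _ (by have := (hσ i' hi').1; omega) h1
  have k2 := hB.2.2 _ (by omega) _ (by omega) h2
  have : e2 (r2 + i) = e2 (r2 + i') := by
    refine Prod.ext k2 ?_
    rw [(hσ i hi).2, (hσ i' hi').2]
    exact k1
  have := hB.1.1 _ (by omega) _ (by omega) this
  omega

def vtab (u : ℕ) : ℕ :=
  if (dig 3 u 0 = 0 ∨ dig 3 u 1 = 0 ∨ dig 3 u 2 = 0) ∧
    dig 3 u 0 ≠ 2 ∧ dig 3 u 1 ≠ 2 ∧ dig 3 u 2 ≠ 2 then 43 else 63

theorem rep_single (hG : G.IsRegularOfDegree 3) (v : V) :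
    ∃ e, Rep G {v} 3 e vtab (fun _ => 0) := by
  obtain ⟨a, b, c, hab, hac, hbc, h⟩ := card_eq_three.1 (hG v)
  have hn : ∀ w, G.Adj v w ↔ w = a ∨ w = b ∨ w = c := fun w => by
    rw [← SimpleGraph.mem_neighborFinset, h]; simp
  let e : ℕ → V × V := fun i => (v, if i = 0 then a else if i = 1 then b else c)
  have hB : ∀ d, Bd G {v} d ↔ d = (v, a) ∨ d = (v, b) ∨ d = (v, c) := by
    rintro ⟨x, y⟩
    simp only [Bd, mem_singleton, Prod.mk.injEq]
    constructor
    · rintro ⟨rfl, -, h⟩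
      simpa using (hn y).1 h
    · rintro (⟨rfl, rfl⟩ | ⟨rfl, rfl⟩ | ⟨rfl, rfl⟩) <;>
      exact ⟨rfl, ((hn _).2 (by simp)).ne', (hn _).2 (by simp)⟩
  refine ⟨e, ⟨fun i hi i' hi' h => ?_, fun i hi => ?_, fun d hd => ?_⟩, fun s hs => ?_,
    fun _ _ _ _ _ => rfl⟩
  · interval_cases i <;> interval_cases i' <;> simp_all [e]
  · rw [hB]; interval_cases i <;> simp [e]
  · rcases (hB d).1 hd with rfl | rfl | rfl
    · exact ⟨0, by norm_num, rfl⟩
    · exact ⟨1, by norm_num, rfl⟩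
    · exact ⟨2, by norm_num, rfl⟩
  · have h0 := dig_cd 3 3 (fun i => s (e i)) (fun i _ => hs _) 0 (by norm_num)
    have h1 := dig_cd 3 3 (fun i => s (e i)) (fun i _ => hs _) 1 (by norm_num)
    have h2 := dig_cd 3 3 (fun i => s (e i)) (fun i _ => hs _) 2 (by norm_num)
    have e0 : e 0 = (v, a) := rfl
    have e1 : e 1 = (v, b) := rfl
    have e2 : e 2 = (v, c) := rfl
    unfold vtab
    rw [h0, h1, h2, e0, e1, e2]
    split_ifs with hc
    · refine ⟨∅, empty_subset _, fun d hd h => ?_, fun u hu => ?_, by simp⟩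
      · rcases (hB d).1 hd with rfl | rfl | rfl <;> tauto
      · rw [mem_singleton.1 hu]
        rcases hc.1 with h | h | h
        · exact Or.inr (Or.inr ⟨_, (hB _).2 (by simp), rfl, h⟩)
        · exact Or.inr (Or.inr ⟨_, (hB _).2 (by simp), rfl, h⟩)
        · exact Or.inr (Or.inr ⟨_, (hB _).2 (by simp), rfl, h⟩)
    · exact ⟨{v}, subset_rfl, fun d hd _ => hd.1, fun u hu => Or.inl hu, by simp⟩

end Pool.Agent.Lib.MP_5a2675_co
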