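import Mathlib
import Pool.Agent.Lib.MP_5a2675_co.Sem

set_option autoImplicit false

namespace Pool.Agent.Lib.MP_5a2675_co

def pk (w n : ℕ) (f : ℕ → ℕ) : ℕ :=
  Nat.rec 0 (fun i r => Nat.add r (Nat.shiftLeft (f i) (Nat.mul w i))) n

theorem pk_zero (w : ℕ) (f : ℕ → ℕ) : pk w 0 f = 0 := rfl
theorem pk_succ (w n : ℕ) (f : ℕ → ℕ) : pk w (n + 1) f = 2 ^ (w * n) * f n + pk w n f := by
  show pk w n f + f n <<< (w * n) = _
  rw [Nat.shiftLeft_eq]; ring

theorem pk_congr (w n : ℕ) (f g : ℕ → ℕ) (h : ∀ i < n, f i = g i) : pk w n f = pk w n g := by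
  induction n with
  | zero => rfl
  | succ n ih => rw [pk_succ, pk_succ, ih fun i hi => h i (by omega), h n (by omega)]

theorem pk_add (w n : ℕ) (f g : ℕ → ℕ) : pk w n f + pk w n g = pk w n fun i => f i + g i := by
  induction n with
  | zero => rfl
  | succ n ih => rw [pk_succ, pk_succ, pk_succ, ← ih]; ring

theorem pk_mul (w n c : ℕ) (f : ℕ → ℕ) : pk w n f * c = pk w n fun i => f i * c := by
  induction n with
  | zero => simp [pk_zero]
  | succ n ih => rw [pk_succ, pk_succ, ← ih]; ring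

theorem mul_pk_one (w n c : ℕ) : c * pk w n (fun _ => 1) = pk w n fun _ => c := by
  rw [mul_comm, pk_mul]; simp

theorem pk_lt (w n : ℕ) (f : ℕ → ℕ) (h : ∀ i < n, f i < 2 ^ w) : pk w n f < 2 ^ (w * n) := by
  induction n with
  | zero => simp [pk_zero]
  | succ n ih =>
    have h1 := ih fun i hi => h i (by omega)
    have h2 : f n + 1 ≤ 2 ^ w := h n (by omega)
    rw [pk_succ, mul_add, mul_one, pow_add]
    have := Nat.mul_le_mul_left (2 ^ (w * n)) h2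
    nlinarith

theorem pk_or (w n : ℕ) (f g : ℕ → ℕ) (hf : ∀ i < n, f i < 2 ^ w) (hg : ∀ i < n, g i < 2 ^ w) :
    pk w n f ||| pk w n g = pk w n fun i => f i ||| g i := by
  induction n with
  | zero => simp [pk_zero]
  | succ n ih =>
    have h1 := pk_lt w n f fun i hi => hf i (by omega)
    have h2 := pk_lt w n g fun i hi => hg i (by omega)
    rw [pk_succ, pk_succ, pk_succ, ← ih (fun i hi => hf i (by omega)) fun i hi => hg i (by omega)]
    apply Nat.eq_of_testBit_eq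
    intro j
    rw [Nat.testBit_or, Nat.testBit_two_pow_mul_add _ h1, Nat.testBit_two_pow_mul_add _ h2,
      Nat.testBit_two_pow_mul_add _ (Nat.or_lt_two_pow h1 h2)]
    split_ifs <;> simp

theorem pk_and (w n : ℕ) (f g : ℕ → ℕ) (hf : ∀ i < n, f i < 2 ^ w) (hg : ∀ i < n, g i < 2 ^ w) :
    pk w n f &&& pk w n g = pk w n fun i => f i &&& g i := by
  induction n with
  | zero => simp [pk_zero]
  | succ n ih =>
    have h1 := pk_lt w n f fun i hi => hf i (by omega)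
    have h2 := pk_lt w n g fun i hi => hg i (by omega)
    rw [pk_succ, pk_succ, pk_succ, ← ih (fun i hi => hf i (by omega)) fun i hi => hg i (by omega)]
    apply Nat.eq_of_testBit_eq
    intro j
    rw [Nat.testBit_and, Nat.testBit_two_pow_mul_add _ h1, Nat.testBit_two_pow_mul_add _ h2,
      Nat.testBit_two_pow_mul_add _ (Nat.and_lt_two_pow _ h2)]
    split_ifs <;> simp

theorem pk_eq_zero (w n : ℕ) (f : ℕ → ℕ) (h : pk w n f = 0) : ∀ i < n, f i = 0 := by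
  induction n with
  | zero => intro i hi; omega
  | succ n ih =>
    rw [pk_succ, Nat.add_eq_zero_iff, Nat.mul_eq_zero] at h
    intro i hi
    rcases Nat.lt_succ_iff_lt_or_eq.1 hi with h1 | rfl
    · exact ih h.2 i h1
    · exact h.1.resolve_left (by positivity)

theorem pk_full (n : ℕ) : pk 9 n (fun _ => 511) + 1 = 2 ^ (9 * n) := by
  induction n with
  | zero => rfl
  | succ n ih => rw [pk_succ, add_assoc, ih]; ring

theorem or255 : ∀ s < 512, 256 ≤ s → s ||| 255 = 511 := by decide +kernel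

def gw (nj : ℕ) : ℕ := Nat.add (Nat.mul 9 nj) 1
def yw (n1 nj : ℕ) : ℕ := Nat.mul (gw nj) n1

def sA (n1 n2 nj : ℕ) (a : ℕ → ℕ → ℕ) : ℕ :=
  Nat.mul (pk (gw nj) n1 fun x => pk 9 nj (a x)) (pk (yw n1 nj) n2 fun _ => 1)
def sB (n1 n2 nj : ℕ) (b : ℕ → ℕ → ℕ) : ℕ :=
  Nat.mul (pk (yw n1 nj) n2 fun y => pk 9 nj (b y)) (pk (gw nj) n1 fun _ => 1)
def sC (n1 n2 nj : ℕ) (c : ℕ → ℕ → ℕ) : ℕ :=
  Nat.mul (pk (yw n1 nj) n2 fun y => pk (gw nj) n1 fun x => c x y) (pk 9 nj fun _ => 1)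
def sK (n1 n2 nj c : ℕ) : ℕ := pk (yw n1 nj) n2 fun _ => pk (gw nj) n1 fun _ => c
def sLo (n1 n2 nj : ℕ) : ℕ := sK n1 n2 nj (pk 9 nj fun _ => 255)
def sOne (n1 n2 nj : ℕ) : ℕ := sK n1 n2 nj 1
def sGd (n1 n2 nj : ℕ) : ℕ := sK n1 n2 nj (Nat.pow 2 (Nat.mul 9 nj))

theorem swar (n1 n2 nj : ℕ) (a b c : ℕ → ℕ → ℕ) (ha : ∀ x z, a x z < 128)
    (hb : ∀ y z, b y z < 128) (hc : ∀ x y, c x y ≤ 255)
    (h : ((sA n1 n2 nj a + sB n1 n2 nj b + sC n1 n2 nj c ||| sLo n1 n2 nj) + sOne n1 n2 nj) &&&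
      sGd n1 n2 nj = 0) (x : ℕ) (hx : x < n1) (y : ℕ) (hy : y < n2) :
    ∃ z < nj, a x z + b y z + c x y ≤ 255 := by
  have eA : sA n1 n2 nj a = pk (yw n1 nj) n2 fun _ => pk (gw nj) n1 fun x => pk 9 nj (a x) :=
    mul_pk_one _ _ _
  have eB : sB n1 n2 nj b = pk (yw n1 nj) n2 fun y => pk (gw nj) n1 fun _ => pk 9 nj (b y) := by
    refine (pk_mul _ _ _ _).trans (pk_congr _ _ _ _ fun y _ => mul_pk_one _ _ _)
  have eC : sC n1 n2 nj c =
      pk (yw n1 nj) n2 fun y => pk (gw nj) n1 fun x => pk 9 nj fun _ => c x y := by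
    refine (pk_mul _ _ _ _).trans (pk_congr _ _ _ _ fun y _ => ?_)
    exact (pk_mul _ _ _ _).trans (pk_congr _ _ _ _ fun x _ => mul_pk_one _ _ _)
  have hgw : 2 ^ gw nj = 2 ^ (9 * nj) * 2 := pow_succ _ _
  have hpos : 0 < 2 ^ (9 * nj) := by positivity
  have hs : ∀ x y z, a x z + b y z + c x y < 2 ^ 9 := fun x y z => by
    have := ha x z; have := hb y z; have := hc x y; omega
  have l1 : ∀ x y, pk 9 nj (fun z => a x z + b y z + c x y) < 2 ^ (9 * nj) := fun x y =>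
    pk_lt _ _ _ fun z _ => hs x y z
  have l2 : pk 9 nj (fun _ => 255) < 2 ^ (9 * nj) := pk_lt _ _ _ fun z _ => by norm_num
  have l3 : ∀ x y, (pk 9 nj (fun z => a x z + b y z + c x y) ||| pk 9 nj fun _ => 255) + 1 <
      2 ^ gw nj := fun x y => by
    have := Nat.or_lt_two_pow (l1 x y) l2
    omega
  have up : ∀ f : ℕ → ℕ, (∀ i, f i < 2 ^ gw nj) → pk (gw nj) n1 f < 2 ^ yw n1 nj := fun f hf =>
    pk_lt _ _ _ fun i _ => hf i
  rw [eA, eB, eC, pk_add, pk_add] at h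
  simp only [pk_add] at h
  unfold sLo sOne sGd sK at h
  rw [pk_or _ _ _ _ (fun y _ => up _ fun x => by have := l1 x y; omega)
    (fun y _ => up _ fun x => by omega), pk_add] at h
  have e1 : ∀ y, (pk (gw nj) n1 (fun x => pk 9 nj fun z => a x z + b y z + c x y) |||
      pk (gw nj) n1 fun _ => pk 9 nj fun _ => 255) + pk (gw nj) n1 (fun _ => 1) =
      pk (gw nj) n1 fun x =>
        (pk 9 nj (fun z => a x z + b y z + c x y) ||| pk 9 nj fun _ => 255) + 1 := fun y => by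
    rw [pk_or _ _ _ _ (fun x _ => by have := l1 x y; omega) (fun x _ => by omega), pk_add]
  simp only [e1] at h
  have l4 : Nat.pow 2 (Nat.mul 9 nj) < 2 ^ gw nj := by
    show 2 ^ (9 * nj) < _
    omega
  rw [pk_and _ _ _ _ (fun y _ => up _ fun x => l3 x y) (fun y _ => up _ fun x => l4)] at h
  have h1 := pk_eq_zero _ _ _ h y hy
  rw [pk_and _ _ _ _ (fun x _ => l3 x y) (fun x _ => l4)] at h1
  have h2 := pk_eq_zero _ _ _ h1 x hx
  by_contra hcon
  push Not at hcon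
  rw [pk_or _ _ _ _ (fun z _ => hs x y z) (fun z _ => by norm_num),
    pk_congr 9 nj _ (fun _ => 511) (fun z hz => or255 _ (hs x y z) (hcon z hz)), pk_full] at h2
  have : 2 ^ (9 * nj) &&& 2 ^ (9 * nj) = 0 := h2
  rw [Nat.and_self] at this
  omega

def get (T i : ℕ) : ℕ := Nat.mod (Nat.shiftRight T (Nat.mul 7 i)) 128

theorem get_lt (T i : ℕ) : get T i < 128 := Nat.mod_lt _ (by norm_num)

def force {α : Type} (n : ℕ) (k : ℕ → α) : α := Nat.rec (k 0) (fun m _ => k (Nat.succ m)) n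

theorem force_eq {α : Type} (n : ℕ) (k : ℕ → α) : force n k = k n := by cases n <;> rfl

def band (a b : Bool) : Bool := Bool.rec false b a

theorem band_iff (a b : Bool) : band a b = true ↔ a = true ∧ b = true := by
  cases a <;> cases b <;> simp [band]

def allLT (n : ℕ) (p : ℕ → Bool) : Bool := Nat.rec true (fun i r => band (p i) r) n

theorem allLT_iff (n : ℕ) (p : ℕ → Bool) : allLT n p = true ↔ ∀ i < n, p i = true := by
  induction n with
  | zero => simp [allLT]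
  | succ n ih =>
    show band (p n) (allLT n p) = true ↔ _
    rw [band_iff, ih]
    constructor
    · rintro ⟨h1, h2⟩ i hi
      rcases Nat.lt_succ_iff_lt_or_eq.1 hi with h | rfl
      exacts [h2 i h, h1]
    · exact fun h => ⟨h n (by omega), fun i hi => h i (by omega)⟩

def IsPerm (k ρ : ℕ) : Prop :=
  (∀ i < k, dig 4 ρ i < k) ∧ (∀ i < k, ∀ i' < k, dig 4 ρ i = dig 4 ρ i' → i = i') ∧
    ∀ a < k, ∃ i < k, dig 4 ρ i = a

instance (k ρ : ℕ) : Decidable (IsPerm k ρ) := by unfold IsPerm; infer_instance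

def isPerm (k ρ : ℕ) : Bool := decide (IsPerm k ρ)

def pc (k ρ u : ℕ) : ℕ := cd 3 k fun i => dig 3 u (dig 4 ρ i)

def perms : List ℕ := [228, 180, 216, 120, 156, 108, 225, 177, 201, 57, 141, 45, 210, 114, 198, 54, 78, 30, 147, 99, 135, 39, 75, 27]

def prm (w : ℕ) : ℕ := perms.getD (Nat.mod w 24) 0
def ent (L : List (ℕ × ℕ)) (w : ℕ) : ℕ × ℕ := L.getD (Nat.div w 24) (0, 0)

def TagJ (r1 r2 ta tb tz ρ : ℕ) : Prop :=
  ∀ i < r1 + r2, ∀ i' < r1 + r2, dig 4 tz i = dig 4 tz i' →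
    (if dig 4 ρ i < r1 then dig 4 ta (dig 4 ρ i) else 4 + dig 4 tb (dig 4 ρ i - r1)) =
    (if dig 4 ρ i' < r1 then dig 4 ta (dig 4 ρ i') else 4 + dig 4 tb (dig 4 ρ i' - r1))

instance (r1 r2 ta tb tz ρ : ℕ) : Decidable (TagJ r1 r2 ta tb tz ρ) := by
  unfold TagJ; infer_instance

def tagJ (r1 r2 ta tb tz ρ : ℕ) : Bool := decide (TagJ r1 r2 ta tb tz ρ)

def BadJ (r1 r2 j σ ta tb : ℕ) : Prop :=
  ∃ i < j, ∃ i' < j, i ≠ i' ∧ dig 4 ta (r1 + dig 4 σ i) = dig 4 ta (r1 + dig 4 σ i') ∧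
    dig 4 tb (r2 + i) = dig 4 tb (r2 + i')

instance (r1 r2 j σ ta tb : ℕ) : Decidable (BadJ r1 r2 j σ ta tb) := by
  unfold BadJ; infer_instance

def badJ (r1 r2 j σ ta tb : ℕ) : Bool := decide (BadJ r1 r2 j σ ta tb)

def JOK (r1 r2 j : ℕ) (L : List (ℕ × ℕ)) (σ : ℕ) (A B : ℕ × ℕ) : Prop :=
  BadJ r1 r2 j σ A.2 B.2 ∨ ∃ Z ∈ L, ∃ ρ, IsPerm (r1 + r2) ρ ∧ TagJ r1 r2 A.2 B.2 Z.2 ρ ∧
    ∀ x < 3 ^ r1, ∀ y < 3 ^ r2, ∃ z < 3 ^ j,
      get A.1 (x + 3 ^ r1 * z) + get B.1 (y + 3 ^ r2 * cd 3 j fun i => 2 - dig 3 z (dig 4 σ i)) ≤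
        get Z.1 (pc (r1 + r2) ρ (x + 3 ^ r1 * y)) + 50

def flp (j σ z : ℕ) : ℕ := cd 3 j fun i => Nat.sub 2 (dig 3 z (dig 4 σ i))

def spA (n1 n2 nj T : ℕ) : ℕ := sA n1 n2 nj fun x z => get T (Nat.add x (Nat.mul n1 z))
def spB (n1 n2 nj j σ T : ℕ) : ℕ :=
  sB n1 n2 nj fun y z => get T (Nat.add y (Nat.mul n2 (flp j σ z)))
def spC (n1 n2 nj k : ℕ) (L : List (ℕ × ℕ)) (w : ℕ) : ℕ :=
  force (prm w) fun ρ => force (ent L w).1 fun T => sC n1 n2 nj fun x y =>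
    force (Nat.add x (Nat.mul n1 y)) fun u => Nat.sub 255 (Nat.add 50 (get T (pc k ρ u)))

def okC (r1 r2 k : ℕ) (L : List (ℕ × ℕ)) (ta tb w : ℕ) : Bool :=
  force (prm w) fun ρ => force (ent L w).2 fun tz =>
    band (Nat.blt (Nat.div w 24) L.length) (band (isPerm k ρ) (tagJ r1 r2 ta tb tz ρ))

def chk (r1 r2 j k n1 n2 nj : ℕ) (L : List (ℕ × ℕ)) (σ TA ta TB tb w : ℕ) : Bool :=
  Bool.rec
    (band (okC r1 r2 k L ta tb w)
      (Nat.beq (Nat.land (Nat.add (Nat.lor (Nat.add (Nat.add (spA n1 n2 nj TA)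
        (spB n1 n2 nj j σ TB)) (spC n1 n2 nj k L w)) (sLo n1 n2 nj)) (sOne n1 n2 nj))
        (sGd n1 n2 nj)) 0))
    (badJ r1 r2 j σ ta tb) (Nat.beq w 16383)

theorem chk_sound (r1 r2 j : ℕ) (L : List (ℕ × ℕ)) (σ TA ta TB tb w : ℕ)
    (h : chk r1 r2 j (r1 + r2) (3 ^ r1) (3 ^ r2) (3 ^ j) L σ TA ta TB tb w = true) :
    JOK r1 r2 j L σ (TA, ta) (TB, tb) := by
  unfold chk at h
  cases hw : Nat.beq w 16383
  · rw [hw] at h
    obtain ⟨h1, h2⟩ := (band_iff _ _).1 h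
    unfold okC at h1
    rw [force_eq, force_eq, band_iff, band_iff] at h1
    obtain ⟨k1, k2, k3⟩ := h1
    have k1' : w / 24 < L.length := Nat.blt_eq.mp k1
    refine Or.inr ⟨ent L w, ?_, prm w, of_decide_eq_true k2, of_decide_eq_true k3,
      fun x hx y hy => ?_⟩
    · show L.getD (w / 24) (0, 0) ∈ L
      rw [List.getD_eq_getElem _ _ k1']
      exact List.getElem_mem _
    · have h3 := Nat.eq_of_beq_eq_true h2
      unfold spA spB spC at h3
      simp only [force_eq] at h3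
      obtain ⟨z, hz, h4⟩ := swar _ _ _ _ _ _ (fun _ _ => get_lt _ _) (fun _ _ => get_lt _ _)
        (fun _ _ => Nat.sub_le _ _) h3 x hx y hy
      refine ⟨z, hz, ?_⟩
      have h5 : get TA (x + 3 ^ r1 * z) +
        get TB (y + 3 ^ r2 * cd 3 j fun i => 2 - dig 3 z (dig 4 σ i)) +
        (255 - (50 + get (ent L w).1 (pc (r1 + r2) (prm w) (x + 3 ^ r1 * y)))) ≤ 255 := h4
      show get TA _ + get TB _ ≤ _
      omega
  · rw [hw] at h
    exact Or.inl (of_decide_eq_true h)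

def row (f : ℕ → ℕ → ℕ → Bool) (l : List (ℕ × ℕ)) : ℕ → Bool :=
  List.rec (fun _ => true) (fun p _ ih W => Prod.rec (fun T t =>
    band (force (Nat.mod W 16384) fun w => f T t w) (ih (Nat.shiftRight W 14))) p) l

theorem row_sound (f : ℕ → ℕ → ℕ → Bool) (l : List (ℕ × ℕ)) :
    ∀ W, row f l W = true → ∀ B ∈ l, ∃ w, f B.1 B.2 w = true := by
  induction l with
  | nil => intro W _ B hB; simp at hB
  | cons p l ih =>
    intro W h B hB
    obtain ⟨T, t⟩ := p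
    have h' : band (force (Nat.mod W 16384) fun w => f T t w) (row f l (Nat.shiftRight W 14))
      = true := h
    rw [band_iff, force_eq] at h'
    rcases List.mem_cons.1 hB with rfl | hB
    · exact ⟨_, h'.1⟩
    · exact ih _ h'.2 B hB

def rows (g : List (ℕ × ℕ) → List (ℕ × ℕ)) (f : ℕ → ℕ → ℕ → ℕ → ℕ → Bool)
    (l : List (ℕ × ℕ)) : List (ℕ × ℕ) → List ℕ → Bool :=
  List.rec (fun _ _ => true) (fun p _ ih Bs Ws => Prod.rec (fun T t =>
    band (row (f T t) Bs (Ws.headD 0)) (ih (g Bs) Ws.tail)) p) l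

theorem rows_sound (g : List (ℕ × ℕ) → List (ℕ × ℕ)) (f : ℕ → ℕ → ℕ → ℕ → ℕ → Bool)
    (l : List (ℕ × ℕ)) : ∀ Bs Ws, rows g f l Bs Ws = true → ∀ i (hi : i < l.length),
      ∀ B ∈ g^[i] Bs, ∃ w, f l[i].1 l[i].2 B.1 B.2 w = true := by
  induction l with
  | nil => intro _ _ _ i hi; simp at hi
  | cons p l ih =>
    intro Bs Ws h i hi B hB
    obtain ⟨T, t⟩ := p
    have h' : band (row (f T t) Bs (Ws.headD 0)) (rows g f l (g Bs) Ws.tail) = true := h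
    rw [band_iff] at h'
    cases i with
    | zero => exact row_sound _ _ _ h'.1 B hB
    | succ i => exact ih _ _ h'.2 i (by simpa using hi) B hB

def ovr (f : ℕ → List ℕ → Bool) (l : List ℕ) : List (List ℕ) → Bool :=
  List.rec (fun _ => true) (fun σ _ ih WW => band (f σ (WW.headD [])) (ih WW.tail)) l

theorem ovr_sound (f : ℕ → List ℕ → Bool) (l : List ℕ) :
    ∀ WW, ovr f l WW = true → ∀ σ ∈ l, ∃ Ws, f σ Ws = true := by
  induction l with
  | nil => intro W _ B hB; simp at hB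
  | cons p l ih =>
    intro WW h B hB
    have h' : band (f p (WW.headD [])) (ovr f l WW.tail) = true := h
    rw [band_iff] at h'
    rcases List.mem_cons.1 hB with rfl | hB
    · exact ⟨_, h'.1⟩
    · exact ih _ h'.2 B hB

def full (r1 r2 j k n1 n2 nj : ℕ) (L As Bs : List (ℕ × ℕ)) (sg : List ℕ) (WW : List (List ℕ)) :
    Bool :=
  ovr (fun σ Ws => rows id (chk r1 r2 j k n1 n2 nj L σ) As Bs Ws) sg WW

theorem full_sound (r1 r2 j : ℕ) (L As Bs : List (ℕ × ℕ)) (sg : List ℕ) (WW : List (List ℕ))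
    (h : full r1 r2 j (r1 + r2) (3 ^ r1) (3 ^ r2) (3 ^ j) L As Bs sg WW = true) :
    ∀ σ ∈ sg, ∀ A ∈ As, ∀ B ∈ Bs, JOK r1 r2 j L σ A B := by
  intro σ hσ A hA B hB
  obtain ⟨Ws, h1⟩ := ovr_sound _ _ _ h σ hσ
  obtain ⟨i, hi, rfl⟩ := List.getElem_of_mem hA
  obtain ⟨w, hw⟩ := rows_sound _ _ _ _ _ h1 i hi B (by simpa using hB)
  exact chk_sound _ _ _ _ _ _ _ _ _ _ hw

def tri (r j k n1 nj : ℕ) (L As : List (ℕ × ℕ)) (a n : ℕ) (sg : List ℕ) (WW : List (List ℕ)) :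
    Bool :=
  ovr (fun σ Ws => rows List.tail (chk r r j k n1 n1 nj L σ) ((As.drop a).take n) (As.drop a) Ws)
    sg WW

def TriOK (r j : ℕ) (L As : List (ℕ × ℕ)) (a b : ℕ) (sg : List ℕ) : Prop :=
  ∀ σ ∈ sg, ∀ i (hi : i < As.length), a ≤ i → i < b → ∀ B ∈ As.drop i, JOK r r j L σ As[i] B

theorem tri_sound (r j : ℕ) (L As : List (ℕ × ℕ)) (a n : ℕ) (sg : List ℕ) (WW : List (List ℕ))
    (h : tri r j (r + r) (3 ^ r) (3 ^ j) L As a n sg WW = true) : TriOK r j L As a (a + n) sg := by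
  intro σ hσ i hi h1 h2 B hB
  obtain ⟨Ws, h3⟩ := ovr_sound _ _ _ h σ hσ
  obtain ⟨c, rfl⟩ : ∃ c, i = a + c := ⟨i - a, by omega⟩
  have ht : ∀ (c : ℕ) (l : List (ℕ × ℕ)), List.tail^[c] l = l.drop c := by
    intro c
    induction c with
    | zero => intro l; rfl
    | succ c ih => intro l; rw [Function.iterate_succ_apply, ih, List.drop_tail]
  obtain ⟨w, hw⟩ := rows_sound _ _ _ _ _ h3 c (by simp; omega) B
    (by rw [ht, List.drop_drop]; exact hB)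
  have e : ((As.drop a).take n)[c]'(by simp; omega) = As[a + c] := by simp
  rw [e] at hw
  exact chk_sound _ _ _ _ _ _ _ _ _ _ hw

theorem TriOK.trans {r j : ℕ} {L As : List (ℕ × ℕ)} {a b c : ℕ} {sg : List ℕ}
    (h1 : TriOK r j L As a b sg) (h2 : TriOK r j L As b c sg) : TriOK r j L As a c sg := by
  intro σ hσ i hi k1 k2
  by_cases h : i < b
  · exact h1 σ hσ i hi k1 h
  · exact h2 σ hσ i hi (by omega) k2

theorem TriOK.either {r j : ℕ} {L As : List (ℕ × ℕ)} {b : ℕ} {sg : List ℕ}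
    (h : TriOK r j L As 0 b sg) (hb : As.length ≤ b) {A B : ℕ × ℕ} (hA : A ∈ As) (hB : B ∈ As) :
    (∀ σ ∈ sg, JOK r r j L σ A B) ∨ ∀ σ ∈ sg, JOK r r j L σ B A := by
  obtain ⟨i, hi, rfl⟩ := List.getElem_of_mem hA
  obtain ⟨i', hi', rfl⟩ := List.getElem_of_mem hB
  have key : ∀ a (ha : a < As.length) c (hc : c < As.length), a ≤ c → As[c] ∈ As.drop a := by
    intro a ha c hc h
    rw [List.mem_iff_getElem]
    exact ⟨c - a, by simp; omega, by simp [show a + (c - a) = c by omega]⟩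
  rcases le_total i i' with h1 | h1
  · exact Or.inl fun σ hσ => h σ hσ i hi (by omega) (by omega) _ (key _ hi _ hi' h1)
  · exact Or.inr fun σ hσ => h σ hσ i' hi' (by omega) (by omega) _ (key _ hi' _ hi h1)

def SideP (r j m tx ty ρ : ℕ) : Prop :=
  IsPerm (r + j) ρ ∧ (∀ i < r + j, (dig 2 m (dig 4 ρ i) = 1 ↔ r ≤ i)) ∧
    ∀ i < r + j, ∀ i' < r + j, dig 4 ty i = dig 4 ty i' →
      dig 4 tx (dig 4 ρ i) = dig 4 tx (dig 4 ρ i')

instance (r j m tx ty ρ : ℕ) : Decidable (SideP r j m tx ty ρ) := by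
  unfold SideP; infer_instance

def sideP (r j m tx ty ρ : ℕ) : Bool := decide (SideP r j m tx ty ρ)

def POK (r j : ℕ) (L : List (ℕ × ℕ)) (m : ℕ) (X : ℕ × ℕ) : Prop :=
  ∃ Y ∈ L, ∃ ρ, SideP r j m X.2 Y.2 ρ ∧
    ∀ u < 3 ^ (r + j), get X.1 u ≤ get Y.1 (pc (r + j) ρ u)

def pchk (r j k n : ℕ) (L : List (ℕ × ℕ)) (m T t w : ℕ) : Bool :=
  force (prm w) fun ρ => force (ent L w).2 fun ty => force (ent L w).1 fun TY =>
    band (Nat.blt (Nat.div w 24) L.length) (band (sideP r j m t ty ρ)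
      (allLT n fun u => Nat.ble (get T u) (get TY (pc k ρ u))))

def pall (r j k n : ℕ) (L Xs : List (ℕ × ℕ)) (ms : List ℕ) (WW : List (List ℕ)) : Bool :=
  ovr (fun m Ws => row (pchk r j k n L m) Xs (Ws.headD 0)) ms WW

theorem pall_sound (r j : ℕ) (L Xs : List (ℕ × ℕ)) (ms : List ℕ) (WW : List (List ℕ))
    (h : pall r j (r + j) (3 ^ (r + j)) L Xs ms WW = true) :
    ∀ m ∈ ms, ∀ X ∈ Xs, POK r j L m X := by
  intro m hm X hX
  obtain ⟨Ws, h1⟩ := ovr_sound _ _ _ h m hm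
  obtain ⟨w, hw⟩ := row_sound _ _ _ h1 X hX
  unfold pchk at hw
  rw [force_eq, force_eq, force_eq, band_iff, band_iff, allLT_iff] at hw
  obtain ⟨k1, k2, k3⟩ := hw
  have k1' : w / 24 < L.length := Nat.blt_eq.mp k1
  refine ⟨ent L w, ?_, prm w, of_decide_eq_true k2, fun u hu => Nat.le_of_ble_eq_true (k3 u hu)⟩
  show L.getD (w / 24) (0, 0) ∈ L
  rw [List.getD_eq_getElem _ _ k1']
  exact List.getElem_mem _

end Pool.Agent.Lib.MP_5a2675_co
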