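import Mathlib
import Pool.Agent.Lib.MP_5a2675_co.Defs

set_option autoImplicit false

namespace Pool.Agent.Lib.MP_5a2675_co

open Finset

def nb (i : Fin 20) (c : Fin 3) : Fin 20 :=
  ⟨((0x8c1f183e7274e4c9c97162d483c1c67b8ad29107235236a4606096a1292141c262808301841 >>> (5 * (3 * i.val + c.val))) % 32) % 20, Nat.mod_lt _ (by decide)⟩

def off (i : Fin 20) (c : Fin 3) : ℤ :=
  if i = 6 ∧ c = 2 then 1 else if i = 0 ∧ c = 2 then -1 else 0

theorem nb_symm : ∀ i c, ∃ c', nb (nb i c) c' = i ∧ off i c + off (nb i c) c' = 0 := by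
  decide +kernel

theorem nb_ne : ∀ i c, nb i c ≠ i := by decide +kernel

theorem nb_inj : ∀ i c c', nb i c = nb i c' → c = c' := by decide +kernel

theorem nb_par : ∀ i, i ≠ 0 → ∃ c, nb i c < i ∧ off i c = 0 := by decide +kernel

theorem off_cases : ∀ i c, off i c = 0 ∨ (i = 6 ∧ c = 2 ∧ off i c = 1) ∨
    (i = 0 ∧ c = 2 ∧ off i c = -1) := by decide +kernel

def nbr (k : ℕ) (u : ZMod (k + 1) × Fin 20) (c : Fin 3) : ZMod (k + 1) × Fin 20 :=
  (u.1 + (off u.2 c : ZMod (k + 1)), nb u.2 c)

def KG (k : ℕ) : SimpleGraph (ZMod (k + 1) × Fin 20) where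
  Adj u v := ∃ c, nbr k u c = v
  symm := ⟨by
    rintro u v ⟨c, rfl⟩
    obtain ⟨c', h1, h2⟩ := nb_symm u.2 c
    refine ⟨c', Prod.ext ?_ h1⟩
    show u.1 + (off u.2 c : ZMod (k + 1)) + (off (nb u.2 c) c' : ZMod (k + 1)) = u.1
    rw [add_assoc, ← Int.cast_add, h2]; simp⟩
  loopless := ⟨by
    rintro u ⟨c, h⟩
    exact nb_ne u.2 c (congrArg Prod.snd h)⟩

instance (k : ℕ) : DecidableRel (KG k).Adj := fun u v =>
  inferInstanceAs (Decidable (∃ c, nbr k u c = v))

theorem KG_adj (k : ℕ) (u v) : (KG k).Adj u v ↔ ∃ c, nbr k u c = v := Iff.rfl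

theorem KG_cubic (k : ℕ) : (KG k).IsRegularOfDegree 3 := by
  intro u
  have : (KG k).neighborFinset u = univ.image (nbr k u) := by
    ext v; simp [KG_adj]
  rw [← SimpleGraph.card_neighborFinset_eq_degree, this,
    card_image_of_injective _ fun c c' h => nb_inj u.2 c c' (congrArg Prod.snd h)]
  simp

theorem KG_conn (k : ℕ) : (KG k).Connected := by
  have h1 : ∀ (a : ZMod (k + 1)) (n : ℕ) (i : Fin 20), i.val = n → (KG k).Reachable (a, 0) (a, i) := by
    intro a n
    induction n using Nat.strong_induction_on with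
    | _ n ih =>
      intro i hi
      by_cases h0 : i = 0
      · rw [h0]
      · obtain ⟨c, h1, h2⟩ := nb_par i h0
        refine (ih _ (hi ▸ h1) (nb i c) rfl).trans (SimpleGraph.Adj.reachable ?_)
        exact ((KG_adj k (a, i) _).2 ⟨c, by simp [nbr, h2]⟩).symm
  have h2 : ∀ t : ℕ, (KG k).Reachable (0, 0) ((t : ZMod (k + 1)), 0) := by
    intro t
    induction t with
    | zero => simp
    | succ t ih =>
      refine (ih.trans (h1 _ _ 6 rfl)).trans (SimpleGraph.Adj.reachable ⟨2, ?_⟩)
      have e1 : off 6 2 = 1 := by decide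
      have e2 : nb 6 2 = 0 := by decide +kernel
      simp [nbr, e1, e2]
  have h3 : ∀ u, (KG k).Reachable (0, 0) u := by
    rintro ⟨a, i⟩
    have := h2 a.val
    rw [ZMod.natCast_zmod_val] at this
    exact this.trans (h1 a _ i rfl)
  exact ⟨fun u v => (h3 u).symm.trans (h3 v)⟩

def emb (k : ℕ) (a : ZMod (k + 1)) : Fin 20 ↪ ZMod (k + 1) × Fin 20 :=
  ⟨fun i => (a, i), fun _ _ h => congrArg Prod.snd h⟩

def cH (T : Finset (Fin 20)) : ℕ :=
  ((T ×ˢ (univ : Finset (Fin 3))).filter fun p => nb p.1 p.2 ∉ T ∨ off p.1 p.2 ≠ 0).card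

theorem cut_le_cH (k : ℕ) (a : ZMod (k + 1)) (T : Finset (Fin 20)) :
    cut (KG k) (T.map (emb k a)) ≤ cH T := by
  unfold cut cH
  refine le_trans (card_le_card ?_) (card_image_le (f := fun p => ((a, p.1), nbr k (a, p.1) p.2)))
  rintro ⟨u, v⟩ h
  simp only [mem_filter, mem_product, mem_compl, mem_map] at h
  obtain ⟨⟨⟨i, hi, rfl⟩, h2⟩, c, rfl⟩ := h
  refine mem_image.2 ⟨(i, c), ?_, rfl⟩
  simp only [mem_filter, mem_product, mem_univ, and_true]
  refine ⟨hi, ?_⟩
  by_contra h
  push Not at h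
  exact h2 ⟨nb i c, h.1, by simp [emb, nbr, h.2]⟩

theorem carv_gadget (k : ℕ) (a : ZMod (k + 1)) : Carving (KG k) 4 (univ.map (emb k a)) := by
  have hs : ∀ i, cH {i} ≤ 4 := by decide +kernel
  have sg : ∀ i : Fin 20, Carving (KG k) 4 (({i} : Finset (Fin 20)).map (emb k a)) := fun i => by
    have := (cut_le_cH k a {i}).trans (hs i)
    rw [map_singleton] at this ⊢
    exact Carving.single _ this
  have un : ∀ {A B : Finset (Fin 20)}, Carving (KG k) 4 (A.map (emb k a)) →
      Carving (KG k) 4 (B.map (emb k a)) → Disjoint A B → cH (A ∪ B) ≤ 4 →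
      Carving (KG k) 4 ((A ∪ B).map (emb k a)) := fun {A B} hA hB hd hc => by
    have := (cut_le_cH k a _).trans hc
    rw [map_union] at this ⊢
    exact Carving.union _ _ hA hB ((disjoint_map _).2 hd) this
  have h := (un (un (un (un (un (un (sg 13) (sg 7) (by decide) (by decide +kernel)) (un (sg 8) (sg 3) (by decide) (by decide +kernel)) (by decide) (by decide +kernel)) (un (sg 9) (sg 4) (by decide) (by decide +kernel)) (by decide) (by decide +kernel)) (un (sg 10) (sg 5) (by decide) (by decide +kernel)) (by decide) (by decide +kernel)) (un (sg 1) (sg 0) (by decide) (by decide +kernel)) (by decide) (by decide +kernel)) (un (un (un (un (un (sg 18) (sg 17) (by decide) (by decide +kernel)) (un (sg 16) (sg 19) (by decide) (by decide +kernel)) (by decide) (by decide +kernel)) (un (sg 14) (sg 12) (by decide) (by decide +kernel)) (by decide) (by decide +kernel)) (un (sg 15) (sg 11) (by decide) (by decide +kernel)) (by decide) (by decide +kernel)) (un (sg 6) (sg 2) (by decide)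 (by decide +kernel)) (by decide) (by decide +kernel)) (by decide) (by decide +kernel))
  exact (congrArg (fun T : Finset (Fin 20) => Carving (KG k) 4 (T.map (emb k a))) (by decide +kernel)).mp h

def pre (k m : ℕ) : Finset (ZMod (k + 1) × Fin 20) :=
  ((range m).image (Nat.cast : ℕ → ZMod (k + 1))) ×ˢ univ

theorem cut_pre (k m : ℕ) : cut (KG k) (pre k (m + 1)) ≤ 4 := by
  unfold cut
  refine le_trans (card_le_card (t := {(((m : ZMod (k + 1)), 6), nbr k (m, 6) 2),
    ((0, 0), nbr k (0, 0) 2)}) ?_) (card_le_two.trans (by norm_num))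
  rintro ⟨⟨a, i⟩, v⟩ h
  simp only [pre, mem_filter, mem_product, mem_compl, mem_image, mem_range, mem_univ,
    and_true] at h
  obtain ⟨⟨⟨t, ht, rfl⟩, h2⟩, c, rfl⟩ := h
  rcases off_cases i c with h | ⟨rfl, rfl, h⟩ | ⟨rfl, rfl, h⟩
  · exact absurd ⟨t, ht, by simp [nbr, h]⟩ h2
  · by_cases e : t = m
    · simp [e]
    · exact absurd ⟨t + 1, by omega, by simp [nbr, h]⟩ h2
  · cases t with
    | zero => simp
    | succ t => exact absurd ⟨t, by omega, by simp [nbr, h]⟩ h2

theorem carv_pre (k m : ℕ) (hm : m ≤ k) : Carving (KG k) 4 (pre k (m + 1)) := by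
  induction m with
  | zero =>
    have : pre k (0 + 1) = univ.map (emb k 0) := by
      ext ⟨a, i⟩; simp [pre, emb, eq_comm]
    rw [this]; exact carv_gadget k 0
  | succ m ih =>
    have e : pre k (m + 1 + 1) = pre k (m + 1) ∪ univ.map (emb k ((m + 1 : ℕ) : ZMod (k + 1))) := by
      ext ⟨a, i⟩
      simp only [pre, range_add_one (n := m + 1), image_insert, mem_product, mem_insert, mem_univ,
        and_true, mem_union, mem_map, true_and, emb, Function.Embedding.coeFn_mk, Prod.mk.injEq,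
        exists_eq_right]
      tauto
    have hc := cut_pre k (m + 1)
    rw [e] at hc ⊢
    refine Carving.union _ _ (ih (by omega)) (carv_gadget k _) (disjoint_left.2 ?_) hc
    rintro ⟨a, i⟩ h1 h2
    simp only [pre, mem_product, mem_image, mem_range] at h1
    obtain ⟨⟨t, ht, rfl⟩, -⟩ := h1
    obtain ⟨j, -, h⟩ := mem_map.1 h2
    have h3 : ((m + 1 : ℕ) : ZMod (k + 1)) = t := congrArg Prod.fst h
    have h4 := congrArg ZMod.val h3
    rw [ZMod.val_cast_of_lt (by omega), ZMod.val_cast_of_lt (by omega)] at h4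
    omega

theorem KG_carving (k : ℕ) : Carving (KG k) 4 univ := by
  have : pre k (k + 1) = univ := by
    ext ⟨a, i⟩
    simp only [pre, mem_product, mem_image, mem_range, mem_univ, and_true, iff_true]
    exact ⟨a.val, ZMod.val_lt a, ZMod.natCast_zmod_val a⟩
  exact this ▸ carv_pre k k le_rfl

def cm (w : Fin 20) : ℕ :=
  2 ^ w.val ||| 2 ^ (nb w 0).val ||| 2 ^ (nb w 1).val ||| 2 ^ (nb w 2).val

theorem cm_spec : ∀ i : Fin 20, (cm i).testBit i = true ∧ ∀ c, (cm (nb i c)).testBit i = true := by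
  decide +kernel

def top (U : ℕ) : Fin 20 := ⟨U.log2 % 20, Nat.mod_lt _ (by decide)⟩

def srch : ℕ → ℕ → Bool
  | 0, U => U.testBit (top U)
  | n + 1, U => U.testBit (top U) && srch n ((U ||| cm (top U)) ^^^ cm (top U)) &&
      srch n ((U ||| cm (nb (top U) 0)) ^^^ cm (nb (top U) 0)) &&
      srch n ((U ||| cm (nb (top U) 1)) ^^^ cm (nb (top U) 1)) &&
      srch n ((U ||| cm (nb (top U) 2)) ^^^ cm (nb (top U) 2))

theorem srch_sound (n : ℕ) : ∀ (U : ℕ) (D : Finset (Fin 20)), srch n U = true →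
    (∀ i : Fin 20, U.testBit i = true → i ∈ D ∨ ∃ c, nb i c ∈ D) → n < D.card := by
  induction n with
  | zero =>
    intro U D h hD
    rcases hD _ h with h | ⟨c, h⟩ <;> exact card_pos.2 ⟨_, h⟩
  | succ n ih =>
    intro U D h hD
    simp only [srch, Bool.and_eq_true] at h
    obtain ⟨⟨⟨⟨h0, h1⟩, h2⟩, h3⟩, h4⟩ := h
    have key : ∀ w ∈ D, srch n ((U ||| cm w) ^^^ cm w) = true → n + 1 < D.card := by
      intro w hw hs
      have := ih _ (D.erase w) hs fun i hi => by
        rw [Nat.testBit_xor, Nat.testBit_or] at hi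
        have k1 : (cm w).testBit i = false := by
          cases e : (cm w).testBit i
          · rfl
          · simp [e] at hi
        have k2 : U.testBit i = true := by simpa [k1] using hi
        rcases hD i k2 with h | ⟨c, h⟩
        · refine Or.inl (mem_erase.2 ⟨fun e => ?_, h⟩)
          rw [← e, (cm_spec i).1] at k1; cases k1
        · refine Or.inr ⟨c, mem_erase.2 ⟨fun e => ?_, h⟩⟩
          rw [← e, (cm_spec i).2 c] at k1; cases k1
      rw [card_erase_of_mem hw] at this
      omega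
    rcases hD _ h0 with h | ⟨c, h⟩
    · exact key _ h h1
    · fin_cases c
      exacts [key _ h h2, key _ h h3, key _ h h4]

theorem srch_run : srch 6 1048510 = true := by decide +kernel

theorem off_zero : ∀ i : Fin 20, Nat.testBit 1048510 i = true → ∀ c, off i c = 0 := by decide +kernel

theorem KG_dom (k : ℕ) (D : Finset (ZMod (k + 1) × Fin 20)) (hD : Dominating (KG k) D) :
    7 * (k + 1) ≤ D.card := by
  rw [card_eq_sum_card_fiberwise (f := Prod.fst) (t := univ) (fun _ _ => mem_univ _)]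
  have h : ∀ a : ZMod (k + 1), 7 ≤ (D.filter fun u => u.1 = a).card := by
    intro a
    have h1 := srch_sound 6 _ (univ.filter fun i => (a, i) ∈ D) srch_run fun i hi => by
      by_cases e : (a, i) ∈ D
      · exact Or.inl (by simp [e])
      · obtain ⟨u, hu, c, rfl⟩ := hD _ e
        exact Or.inr ⟨c, by simpa [nbr, off_zero i hi c] using hu⟩
    refine le_trans h1 (card_le_card_of_injOn (fun i => (a, i)) (fun i hi => ?_) ?_)
    · simpa using hi
    · exact fun _ _ _ _ h => congrArg Prod.snd h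
  calc 7 * (k + 1) = ∑ _a : ZMod (k + 1), 7 := by simp [mul_comm]
    _ ≤ _ := sum_le_sum fun a _ => h a

end Pool.Agent.Lib.MP_5a2675_co
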